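import Pool.Agent.H77.KG.Targets

/-!
# Board kgr_modules, row CFL: the field generated by a normal abelian subgroup
-/

set_option autoImplicit false

open Set Pool.Agent.H77.BC Pool.Agent.H77.BD Pool.Agent.H77.KG

namespace Pool.Agent.H20.KGR

private theorem end_sum {V ι : Type} [AddCommGroup V] (s : Finset ι) (f : ι → AddMonoid.End V)
    (v : V) : (∑ i ∈ s, f i) v = ∑ i ∈ s, f i v :=
  AddMonoidHom.finsetSum_apply f s v

private theorem end_sub {V : Type} [AddCommGroup V] (f g : AddMonoid.End V) (v : V) :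
    (f - g) v = f v - g v := rfl

private theorem end_mul {V : Type} [AddCommGroup V] (f g : AddMonoid.End V) (v : V) :
    (f * g) v = f (g v) := rfl

/-- the operators of the elements of `G` -/
private def tau (G V : Type) [Group G] [AddCommGroup V] [DistribMulAction G V] :
    G →* AddMonoid.End V := DistribMulAction.toAddMonoidEnd G V

private theorem tau_apply {G V : Type} [Group G] [AddCommGroup V] [DistribMulAction G V] (g : G)
    (v : V) : tau G V g v = g • v := rfl

/-- conjugation of operators by `g` -/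
private def cj {G V : Type} [Group G] [AddCommGroup V] [DistribMulAction G V] (g : G) :
    AddMonoid.End V →+* AddMonoid.End V where
  toFun r := tau G V g * r * tau G V g⁻¹
  map_one' := by
    rw [mul_one, ← map_mul, mul_inv_cancel, map_one]
  map_mul' r s := by
    have h : tau G V g⁻¹ * tau G V g = 1 := by
      rw [← map_mul, inv_mul_cancel, map_one]
    calc tau G V g * (r * s) * tau G V g⁻¹ = tau G V g * r * 1 * s * tau G V g⁻¹ := by
          simp only [mul_one, mul_assoc]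
      _ = tau G V g * r * (tau G V g⁻¹ * tau G V g) * s * tau G V g⁻¹ := by rw [h]
      _ = tau G V g * r * tau G V g⁻¹ * (tau G V g * s * tau G V g⁻¹) := by
          simp only [mul_assoc]
  map_zero' := by rw [mul_zero, zero_mul]
  map_add' r s := by rw [mul_add, add_mul]

private theorem cj_apply {G V : Type} [Group G] [AddCommGroup V] [DistribMulAction G V] (g : G)
    (r : AddMonoid.End V) (v : V) : cj g r v = g • r (g⁻¹ • v) := rfl

private theorem cj_mem {G V : Type} [Group G] [AddCommGroup V] [DistribMulAction G V]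
    {T : Subgroup G} (hN : T.Normal) (g : G) {r : AddMonoid.End V} (hr : r ∈ Eg (V := V) T) :
    cj g r ∈ Eg (V := V) T := by
  have h : Eg (V := V) T ≤ (Eg (V := V) T).comap (cj g) := by
    refine Subring.closure_le.2 ?_
    rintro f ⟨t, ht, hf⟩
    refine Subring.subset_closure ⟨g * t * g⁻¹, hN.conj_mem t ht g, fun v => ?_⟩
    rw [cj_apply, hf, mul_smul, mul_smul]
  exact h hr

section main

variable {M : Type} {U : RU M} {G V K : Type} [Group G] [AddCommGroup V] [DistribMulAction G V]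
  [Cod M G] [Cod M V] [DG U G] [DAb U V] [DA U G V] [Field K] [Cod M K] [Ful U K]

/-- the representation of the field elements by differences of operators -/
private theorem rep (φ : K →+* AddMonoid.End V) {T : Subgroup G}
    (hE : ∀ r, r ∈ Eg (V := V) T ↔ ∃ x, φ x = r) {w0 : V}
    (hinj : ∀ x y, φ x w0 = φ y w0 → x = y) {k : ℕ} {t t' : Fin k → G}
    (ht : ∀ i, t i ∈ T ∧ t' i ∈ T) {x : K} (hx : φ x w0 = ∑ i, (t i • w0 - t' i • w0)) (v : V) :
    φ x v = ∑ i, (t i • v - t' i • v) := by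
  have h1 : ∀ t ∈ T, ∃ y, φ y = tau G V t := fun t ht =>
    (hE _).1 (Subring.subset_closure ⟨t, ht, fun v => rfl⟩)
  choose y hy using fun i => h1 (t i) (ht i).1
  choose y' hy' using fun i => h1 (t' i) (ht i).2
  have h2 : ∀ v, φ (∑ i, (y i - y' i)) v = ∑ i, (t i • v - t' i • v) := by
    intro v
    rw [map_sum, end_sum]
    refine Finset.sum_congr rfl fun i _ => ?_
    rw [map_sub, hy, hy', end_sub]
    rfl
  have h3 : x = ∑ i, (y i - y' i) := hinj _ _ (by rw [hx, h2])
  rw [h3, h2]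

/-- the evaluation is definable -/
private theorem ev_def (φ : K →+* AddMonoid.End V) {T : Subgroup G} (hT : U.D (T : Set G))
    (hE : ∀ r, r ∈ Eg (V := V) T ↔ ∃ x, φ x = r) {w0 : V}
    (hinj : ∀ x y, φ x w0 = φ y w0 → x = y) {k : ℕ}
    (hk : ∀ x, ∃ t t' : Fin k → G, (∀ i, t i ∈ T ∧ t' i ∈ T) ∧
      φ x w0 = ∑ i, (t i • w0 - t' i • w0))
    (hd : DFn U (fun x : K => φ x w0)) : DFn U (fun z : K × V => φ z.1 z.2) := by
  have h1 : U.D {z : ((K × V) × V) × ((Fin k → G) × (Fin k → G)) |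
      (∀ i, z.2.1 i ∈ T ∧ z.2.2 i ∈ T) ∧
      (φ z.1.1.1 w0 = ∑ i, (z.2.1 i • w0 - z.2.2 i • w0) ∧
      z.1.2 = ∑ i, (z.2.1 i • z.1.1.2 - z.2.2 i • z.1.1.2))} := by
    have e1 : ∀ i : Fin k, DFn U (fun z : ((K × V) × V) × ((Fin k → G) × (Fin k → G)) =>
        z.2.1 i) := fun i => DFn_comp (g := fun x : Fin k → G => x i) (DFn_apply i)
          (DFn_comp DFn_fst DFn_snd)
    have e2 : ∀ i : Fin k, DFn U (fun z : ((K × V) × V) × ((Fin k → G) × (Fin k → G)) =>
        z.2.2 i) := fun i => DFn_comp (g := fun x : Fin k → G => x i) (DFn_apply i)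
          (DFn_comp DFn_snd DFn_snd)
    have e3 : DFn U (fun z : ((K × V) × V) × ((Fin k → G) × (Fin k → G)) => z.1.1.2) :=
      DFn_comp (g := fun z : (K × V) => z.2) DFn_snd (DFn_comp DFn_fst DFn_fst)
    have e4 : DFn U (fun z : ((K × V) × V) × ((Fin k → G) × (Fin k → G)) => z.1.1.1) :=
      DFn_comp (g := fun z : (K × V) => z.1) DFn_fst (DFn_comp DFn_fst DFn_fst)
    have e5 : DFn U (fun z : ((K × V) × V) × ((Fin k → G) × (Fin k → G)) => z.1.2) :=
      DFn_comp DFn_snd DFn_fst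
    refine D_and ?_ (D_and ?_ ?_)
    · refine D_forall_fin fun i => D_and ?_ ?_
      · exact D_subst (p := fun x => x ∈ T) hT (e1 i)
      · exact D_subst (p := fun x => x ∈ T) hT (e2 i)
    · refine D_eqf (DFn_comp (g := fun x : K => φ x w0) hd e4) ?_
      exact DFn_asum _ fun i _ => DFn_asub (DFn_act (e1 i) (DFn_const _))
        (DFn_act (e2 i) (DFn_const _))
    · refine D_eqf e5 ?_
      exact DFn_asum _ fun i _ => DFn_asub (DFn_act (e1 i) e3) (DFn_act (e2 i) e3)
  have h2 := D_exists (p := fun (z : (K × V) × V) (q : (Fin k → G) × (Fin k → G)) =>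
    (∀ i, q.1 i ∈ T ∧ q.2 i ∈ T) ∧
      (φ z.1.1 w0 = ∑ i, (q.1 i • w0 - q.2 i • w0) ∧
      z.2 = ∑ i, (q.1 i • z.1.2 - q.2 i • z.1.2))) h1
  unfold DFn
  have e : {p : (K × V) × V | p.2 = φ p.1.1 p.1.2} = {z | ∃ q : (Fin k → G) × (Fin k → G),
    (∀ i, q.1 i ∈ T ∧ q.2 i ∈ T) ∧
      (φ z.1.1 w0 = ∑ i, (q.1 i • w0 - q.2 i • w0) ∧
      z.2 = ∑ i, (q.1 i • z.1.2 - q.2 i • z.1.2))} := by
    ext p
    constructor
    · intro hp
      obtain ⟨t, t', ht, hx⟩ := hk p.1.1
      refine ⟨(t, t'), ht, hx, ?_⟩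
      have hp' : p.2 = φ p.1.1 p.1.2 := hp
      rw [hp']
      exact rep φ hE hinj ht hx _
    · rintro ⟨q, ht, hx, hy⟩
      have h3 := rep φ hE hinj (t := q.1) (t' := q.2) ht hx p.1.2
      change p.2 = φ p.1.1 p.1.2
      rw [h3, hy]
  rw [e]
  exact h2

private theorem df (φ : K →+* AddMonoid.End V) {w0 : V}
    (hinj : ∀ x y, φ x w0 = φ y w0 → x = y) (hd : DFn U (fun x : K => φ x w0))
    (hev : DFn U (fun z : K × V => φ z.1 z.2)) : DF U K := by
  refine ⟨?_, ?_⟩
  · have h : U.D {z : (K × K) × K | φ z.2 w0 = φ z.1.1 w0 + φ z.1.2 w0} :=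
      D_eqf (DFn_comp (g := fun x : K => φ x w0) hd DFn_snd)
        (DFn_aadd (DFn_comp (g := fun x : K => φ x w0) hd (DFn_comp DFn_fst DFn_fst))
          (DFn_comp (g := fun x : K => φ x w0) hd (DFn_comp DFn_snd DFn_fst)))
    unfold DFn
    have e : {p : (K × K) × K | p.2 = p.1.1 + p.1.2} =
        {z : (K × K) × K | φ z.2 w0 = φ z.1.1 w0 + φ z.1.2 w0} := by
      ext p
      constructor
      · intro hp
        have hp' : p.2 = p.1.1 + p.1.2 := hp
        change φ p.2 w0 = φ p.1.1 w0 + φ p.1.2 w0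
        rw [hp', map_add]
        rfl
      · intro hp
        have hp' : φ p.2 w0 = φ p.1.1 w0 + φ p.1.2 w0 := hp
        refine hinj _ _ ?_
        rw [hp', map_add]
        rfl
    rw [e]
    exact h
  · have h : U.D {z : (K × K) × K | φ z.2 w0 = φ z.1.1 (φ z.1.2 w0)} :=
      D_eqf (DFn_comp (g := fun x : K => φ x w0) hd DFn_snd)
        (DFn_comp (g := fun z : K × V => φ z.1 z.2) hev
          (DFn_pair (DFn_comp DFn_fst DFn_fst)
            (DFn_comp (g := fun x : K => φ x w0) hd (DFn_comp DFn_snd DFn_fst))))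
    unfold DFn
    have e : {p : (K × K) × K | p.2 = p.1.1 * p.1.2} =
        {z : (K × K) × K | φ z.2 w0 = φ z.1.1 (φ z.1.2 w0)} := by
      ext p
      constructor
      · intro hp
        have hp' : p.2 = p.1.1 * p.1.2 := hp
        change φ p.2 w0 = φ p.1.1 (φ p.1.2 w0)
        rw [hp', map_mul]
        rfl
      · intro hp
        have hp' : φ p.2 w0 = φ p.1.1 (φ p.1.2 w0) := hp
        refine hinj _ _ ?_
        rw [hp', map_mul]
        rfl
    rw [e]
    exact h

/-- the conclusion, with the field as a type with codes -/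
private theorem core (hAUT : T_AUT) (hG : Conn U (⊤ : Subgroup G)) [Infinite K]
    (φ : K →+* AddMonoid.End V) {T : Subgroup G} (hN : T.Normal) (hT : U.D (T : Set G))
    (hE : ∀ r, r ∈ Eg (V := V) T ↔ ∃ x, φ x = r) {w0 : V}
    (hinj : ∀ x y, φ x w0 = φ y w0 → x = y) {k : ℕ}
    (hk : ∀ x, ∃ t t' : Fin k → G, (∀ i, t i ∈ T ∧ t' i ∈ T) ∧
      φ x w0 = ∑ i, (t i • w0 - t' i • w0))
    (hd : DFn U (fun x : K => φ x w0)) : ∀ g : G, ∀ t ∈ T, ∀ v : V,
      (g * t * g⁻¹) • v = t • v := by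
  have hev := ev_def φ hT hE hinj hk hd
  have hDF : DF U K := df φ hinj hd hev
  have hφ : ∀ x y, φ x = φ y → x = y := fun x y h => hinj x y (by rw [h])
  have hex : ∀ (g : G) (x : K), ∃ y, φ y = cj g (φ x) := fun g x =>
    (hE _).1 (cj_mem hN g ((hE _).2 ⟨x, rfl⟩))
  choose a ha using hex
  have haa : ∀ g h x, a g (a h x) = a (g * h) x := by
    intro g h x
    refine hφ _ _ ?_
    rw [ha, ha, ha]
    ext v
    rw [cj_apply, cj_apply, cj_apply, mul_smul, mul_inv_rev, mul_smul]
  have ha1 : ∀ x, a 1 x = x := by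
    intro x
    refine hφ _ _ ?_
    rw [ha]
    ext v
    rw [cj_apply, one_smul, inv_one, one_smul]
  let α : G →* (K ≃+* K) :=
    { toFun := fun g =>
        { toFun := a g
          invFun := a g⁻¹
          left_inv := fun x => by rw [haa, inv_mul_cancel, ha1]
          right_inv := fun x => by rw [haa, mul_inv_cancel, ha1]
          map_mul' := fun x y => hφ _ _ (by rw [map_mul, ha, ha, ha, map_mul, map_mul])
          map_add' := fun x y => hφ _ _ (by rw [map_add, ha, ha, ha, map_add, map_add]) }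
      map_one' := RingEquiv.ext fun x => ha1 x
      map_mul' := fun g h => RingEquiv.ext fun x => (haa g h x).symm }
  have hα : ∀ g x, α g x = a g x := fun g x => rfl
  have hdα : DFn U (fun p : G × K => α p.1 p.2) := by
    have h : U.D {z : (G × K) × K | φ z.2 w0 = z.1.1 • φ z.1.2 (z.1.1⁻¹ • w0)} := by
      refine D_eqf (DFn_comp (g := fun x : K => φ x w0) hd DFn_snd) ?_
      refine DFn_act (DFn_comp DFn_fst DFn_fst) ?_
      refine DFn_comp (g := fun z : K × V => φ z.1 z.2) hev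
        (f := fun z : (G × K) × K => (z.1.2, z.1.1⁻¹ • w0)) ?_
      refine DFn_pair (DFn_comp DFn_snd DFn_fst) ?_
      exact DFn_act (DFn_ginv (DFn_comp DFn_fst DFn_fst)) (DFn_const _)
    unfold DFn
    have e : {p : (G × K) × K | p.2 = α p.1.1 p.1.2} =
        {z : (G × K) × K | φ z.2 w0 = z.1.1 • φ z.1.2 (z.1.1⁻¹ • w0)} := by
      ext p
      constructor
      · intro hp
        have hp' : p.2 = α p.1.1 p.1.2 := hp
        change φ p.2 w0 = p.1.1 • φ p.1.2 (p.1.1⁻¹ • w0)
        rw [hp', hα, ha, cj_apply]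
      · intro hp
        have hp' : φ p.2 w0 = p.1.1 • φ p.1.2 (p.1.1⁻¹ • w0) := hp
        change p.2 = α p.1.1 p.1.2
        refine hinj _ _ ?_
        rw [hp', hα, ha, cj_apply]
    rw [e]
    exact h
  have key := hAUT U α hdα hG
  intro g t ht v
  obtain ⟨x, hx⟩ := (hE (tau G V t)).1 (Subring.subset_closure ⟨t, ht, fun v => rfl⟩)
  have h1 : φ (a g x) = φ x := by rw [← hα, key]
  rw [ha, hx] at h1
  have h2 : cj g (tau G V t) v = tau G V t v := by rw [h1]
  rw [cj_apply, tau_apply, tau_apply] at h2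
  rw [mul_smul, mul_smul]
  exact h2

end main

theorem pf_CFL (hAUT : T_AUT) : T_CFL := by
  intro M U G V _ _ _ _ _ _ _ _ hG T hN hT hcomm W hW hWT hWinf h1 h2
  -- E W is contained in W
  have hEW : ∀ r ∈ Eg (V := V) T, ∀ w ∈ W, r w ∈ W := by
    intro r hr
    induction hr using Subring.closure_induction with
    | mem f hf =>
      obtain ⟨t, ht, hft⟩ := hf
      intro w hw
      rw [hft]
      exact hWT t ht w hw
    | zero =>
      intro w _
      exact W.zero_mem
    | one =>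
      intro w hw
      exact hw
    | add f g _ _ hf hg =>
      intro w hw
      exact W.add_mem (hf w hw) (hg w hw)
    | neg f _ hf =>
      intro w hw
      exact W.neg_mem (hf w hw)
    | mul f g _ _ hf hg =>
      intro w hw
      exact hf _ (hg w hw)
  -- E is commutative
  have hgen : ∀ a ∈ {f : AddMonoid.End V | ∃ t ∈ T, ∀ v, f v = t • v},
      ∀ b ∈ {f : AddMonoid.End V | ∃ t ∈ T, ∀ v, f v = t • v}, a * b = b * a := by
    rintro a ⟨t, ht, hat⟩ b ⟨s, hs, hbs⟩
    ext v
    rw [end_mul, end_mul, hbs, hat, hat, hbs, ← mul_smul,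
      ← mul_smul, hcomm t ht s hs]
  have hEc : ∀ r ∈ Eg (V := V) T, ∀ s ∈ Eg (V := V) T, r * s = s * r := by
    intro r hr s hs
    have hc := Subring.isMulCommutative_closure hgen
    exact congrArg Subtype.val (hc.is_comm.comm (⟨r, hr⟩ : Subring.closure
      {f : AddMonoid.End V | ∃ t ∈ T, ∀ v, f v = t • v}) ⟨s, hs⟩)
  -- a vector
  obtain ⟨w0, hw0, hne⟩ : ∃ w0 ∈ W, w0 ≠ 0 := by
    by_contra hcon
    push Not at hcon
    apply hWinf
    refine (Set.finite_singleton (0 : V)).subset ?_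
    intro w hw
    exact hcon w hw
  have hzero : ∀ r ∈ Eg (V := V) T, r w0 = 0 → r = 0 := by
    intro r hr h0
    rcases h1 r hr with h | h
    · ext v
      exact h v
    · exact (hne (h w0 hw0 h0)).elim
  obtain ⟨k, hk⟩ := h2 w0 hw0 hne
  have hsum : ∀ (n : ℕ) (t t' : Fin n → G), (∀ i, t i ∈ T ∧ t' i ∈ T) →
      ∃ r ∈ Eg (V := V) T, ∀ v, r v = ∑ i, (t i • v - t' i • v) := by
    intro n t t' ht
    refine ⟨∑ i, (tau G V (t i) - tau G V (t' i)), ?_, fun v => ?_⟩
    · refine Subring.sum_mem _ fun i _ => Subring.sub_mem _ ?_ ?_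
      · exact Subring.subset_closure ⟨t i, (ht i).1, fun v => rfl⟩
      · exact Subring.subset_closure ⟨t' i, (ht i).2, fun v => rfl⟩
    · rw [end_sum]
      rfl
  have hfield : IsField (Eg (V := V) T) := by
    refine ⟨⟨0, 1, fun h => ?_⟩, fun a b => Subtype.ext (hEc a.1 a.2 b.1 b.2), fun {a} ha => ?_⟩
    · have h3 : (0 : AddMonoid.End V) = 1 := congrArg Subtype.val h
      have h4 : (0 : AddMonoid.End V) w0 = (1 : AddMonoid.End V) w0 := by rw [h3]
      exact hne h4.symm
    · have ha0 : a.1 ≠ 0 := fun h => ha (Subtype.ext h)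
      have h3 : a.1 w0 ≠ 0 := fun h => ha0 (hzero a.1 a.2 h)
      obtain ⟨n, hn⟩ := h2 (a.1 w0) (hEW a.1 a.2 w0 hw0) h3
      obtain ⟨t, t', ht, h4⟩ := hn w0 hw0
      obtain ⟨s, hs, h5⟩ := hsum n t t' ht
      have h6 : s (a.1 w0) = w0 := by rw [h5, ← h4]
      refine ⟨⟨s, hs⟩, ?_⟩
      have h7 : a.1 * s - 1 = 0 := by
        refine hzero _ (Subring.sub_mem _ (Subring.mul_mem _ a.2 hs) (Subring.one_mem _)) ?_
        rw [hEc a.1 a.2 s hs, end_sub, end_mul, h6]
        exact sub_self w0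
      exact Subtype.ext (sub_eq_zero.1 h7)
  letI fK : Field (Eg (V := V) T) := hfield.toField
  let φ : Eg (V := V) T →+* AddMonoid.End V :=
    { toFun := Subtype.val
      map_one' := rfl
      map_mul' := fun _ _ => rfl
      map_zero' := rfl
      map_add' := fun _ _ => rfl }
  have hφ : ∀ x, φ x = x.1 := fun x => rfl
  have hinj : ∀ x y, φ x w0 = φ y w0 → x = y := by
    intro x y h
    have h3 : x.1 - y.1 = 0 := by
      refine hzero _ (Subring.sub_mem _ x.2 y.2) ?_
      rw [end_sub]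
      exact sub_eq_zero.2 h
    exact Subtype.ext (sub_eq_zero.1 h3)
  have hon : ∀ w ∈ W, ∃ x, φ x w0 = w := by
    intro w hw
    obtain ⟨t, t', ht, h4⟩ := hk w hw
    obtain ⟨s, hs, h5⟩ := hsum k t t' ht
    exact ⟨⟨s, hs⟩, (h5 w0).trans h4.symm⟩
  haveI : Infinite (Eg (V := V) T) := by
    by_contra hfin
    rw [not_infinite_iff_finite] at hfin
    apply hWinf
    refine (Set.finite_range (fun x : Eg (V := V) T => φ x w0)).subset ?_
    intro w hw
    obtain ⟨x, hx⟩ := hon w hw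
    exact ⟨x, hx⟩
  letI cK : Cod M (Eg (V := V) T) := ⟨Cod.ι M V, inferInstance, fun x => Cod.c (φ x w0),
    fun x y h => hinj x y (Cod.inj (M := M) h)⟩
  haveI fulK : Ful U (Eg (V := V) T) := ⟨by
    unfold RU.D
    have e : (Cod.c (M := M) '' (univ : Set (Eg (V := V) T))) =
        Cod.c (M := M) '' (W : Set V) := by
      ext z
      constructor
      · rintro ⟨x, -, rfl⟩
        exact ⟨φ x w0, hEW x.1 x.2 w0 hw0, rfl⟩
      · rintro ⟨w, hw, rfl⟩
        obtain ⟨x, hx⟩ := hon w hw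
        refine ⟨x, mem_univ _, ?_⟩
        rw [← hx]
        rfl
    rw [e]
    exact hW⟩
  have hd : DFn U (fun x : Eg (V := V) T => φ x w0) := DFn_of_code id fun _ => rfl
  exact core hAUT hG φ hN hT (fun r => ⟨fun hr => ⟨⟨r, hr⟩, rfl⟩, fun ⟨x, hx⟩ => hx ▸ x.2⟩) hinj
    (fun x => hk _ (hEW x.1 x.2 w0 hw0)) hd

end Pool.Agent.H20.KGR
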